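import Pool.Agent.U152.EF.Lay
import Pool.Agent.U152.RK.Rat

/-!
# Properties of number fields which follow from fields with a real place and CM fields
-/

set_option autoImplicit false

namespace Pool.Agent.U152.EF

open Module IntermediateField Pool.Agent.U10.Shr Pool.Agent.Q60.MU Pool.Agent.W5h77.MB
open Pool.Agent.U152.MU Pool.Agent.U152.RK Pool.Agent.U152.FS
open Pool.Agent.X310.Mu (comms)
open scoped ComplexConjugate

/-- One field. -/
theorem abs_step {P : IntermediateField ℚ Qb → Prop}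
    (hmono : ∀ E F : IntermediateField ℚ Qb, FiniteDimensional ℚ F → E ≤ F → P F → P E)
    (hstep : ∀ F : IntermediateField ℚ Qb, FiniteDimensional ℚ F → ∀ (ι : Qb →+* ℂ) (c : Gal(Qb/ℚ)),
      (∀ x, ι (c x) = conj (ι x)) → c * c = 1 →
      (∀ (ι' : Qb →+* ℂ) (c' : Gal(Qb/ℚ)), (∀ x, ι' (c' x) = conj (ι' x)) →
        P ((F ⊔ F.map c'.toAlgHom) ⊓ realSub ι')) →
      P (fixedField (F.fixingSubgroup ⊔ comms c)) → P F)
    (F : IntermediateField ℚ Qb) [FiniteDimensional ℚ F]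
    (hr : ∀ (ι : Qb →+* ℂ) (c : Gal(Qb/ℚ)), (∀ x, ι (c x) = conj (ι x)) →
      P ((F ⊔ F.map c.toAlgHom) ⊓ realSub ι))
    (hcm : ∀ E ≤ F, CM E → P E) : P F := by
  obtain ⟨ι⟩ := exists_iota
  obtain ⟨c, hc, hcc⟩ := exists_conj ι
  refine hstep F inferInstance ι c hc hcc hr ?_
  have hWo : IsOpen ((F.fixingSubgroup ⊔ comms c : Subgroup Gal(Qb/ℚ)) : Set Gal(Qb/ℚ)) :=
    Subgroup.isOpen_mono le_sup_left F.fixingSubgroup_isOpen
  have hle : fixedField (F.fixingSubgroup ⊔ comms c) ≤ F := by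
    conv_rhs => rw [← InfiniteGalois.fixedField_fixingSubgroup F]
    exact IntermediateField.fixedField_antitone le_sup_left
  by_cases hcW : c ∈ F.fixingSubgroup ⊔ comms c
  · refine hmono _ ((F ⊔ F.map c.toAlgHom) ⊓ realSub ι) inferInstance ?_ (hr ι c hc)
    refine le_inf (hle.trans le_sup_left) fun x hx => ?_
    rw [mem_realSub, ← hc]
    rw [mem_fixedField_iff] at hx
    rw [hx c hcW]
  · exact hcm _ hle (cm_of_comms hWo hc hcW le_sup_right)

/-- All the fields of bounded degree. -/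
theorem abs_deg {P : IntermediateField ℚ Qb → Prop}
    (hmono : ∀ E F : IntermediateField ℚ Qb, FiniteDimensional ℚ F → E ≤ F → P F → P E)
    (hstep : ∀ F : IntermediateField ℚ Qb, FiniteDimensional ℚ F → ∀ (ι : Qb →+* ℂ) (c : Gal(Qb/ℚ)),
      (∀ x, ι (c x) = conj (ι x)) → c * c = 1 →
      (∀ (ι' : Qb →+* ℂ) (c' : Gal(Qb/ℚ)), (∀ x, ι' (c' x) = conj (ι' x)) →
        P ((F ⊔ F.map c'.toAlgHom) ⊓ realSub ι')) →
      P (fixedField (F.fixingSubgroup ⊔ comms c)) → P F)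
    {d : ℕ} (hd : 3 ≤ d)
    (hr : ∀ E : IntermediateField ℚ Qb, FiniteDimensional ℚ E → RealPl E →
      2 * finrank ℚ E ≤ d * (d - 1) → P E)
    (hcm : ∀ E : IntermediateField ℚ Qb, FiniteDimensional ℚ E → CM E → finrank ℚ E ≤ d → P E)
    (F : IntermediateField ℚ Qb) [FiniteDimensional ℚ F] (hF : finrank ℚ F ≤ d) : P F := by
  by_cases hreal : RealPl F
  · refine hr F inferInstance hreal ?_
    have h1 : d * 2 ≤ d * (d - 1) := Nat.mul_le_mul_left _ (by omega)
    omega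
  · refine abs_step hmono hstep F (fun ι c hc => ?_) fun E hE hcE => ?_
    · refine hr _ inferInstance ⟨ι, fun x hx => mem_realSub.1 ((IntermediateField.mem_inf).1 hx).2⟩ ?_
      exact (deg_le hreal hc).trans (Nat.mul_le_mul hF (Nat.sub_le_sub_right hF 1))
    · have := fd_of_le hE
      have h1 : finrank ℚ E ≤ finrank ℚ F :=
        Nat.le_of_dvd finrank_pos (IntermediateField.finrank_dvd_of_le_right hE)
      exact hcm E inferInstance hcE (h1.trans hF)

section hom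

variable {p : ℕ} [hp : Fact p.Prime] {S : Set ℕ}

theorem hb_mono (E F : IntermediateField ℚ Qb) (_ : FiniteDimensional ℚ F) (hEF : E ≤ F)
    (h : HomBdd p S F.fixingSubgroup) : HomBdd p S E.fixingSubgroup := by
  have hE : FiniteDimensional ℚ E := fd_of_le hEF
  rw [homBdd_iff (big_fix F)] at h
  rw [homBdd_iff (big_fix E)]
  exact MuS.of_le (lay_layers hp.out) (fixingSubgroup_le hEF) F.fixingSubgroup_isOpen
    (index_ne_zero' F) h

theorem hb_step (hp2 : p ≠ 2) (hS : Primes S) (F : IntermediateField ℚ Qb)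
    (_ : FiniteDimensional ℚ F) (ι : Qb →+* ℂ) (c : Gal(Qb/ℚ)) (hc : ∀ x, ι (c x) = conj (ι x))
    (hcc : c * c = 1)
    (hr : ∀ (ι' : Qb →+* ℂ) (c' : Gal(Qb/ℚ)), (∀ x, ι' (c' x) = conj (ι' x)) →
      HomBdd p S ((F ⊔ F.map c'.toAlgHom) ⊓ realSub ι').fixingSubgroup)
    (hD : HomBdd p S (fixedField (F.fixingSubgroup ⊔ comms c)).fixingSubgroup) :
    HomBdd p S F.fixingSubgroup := by
  have hWo : IsOpen ((F.fixingSubgroup ⊔ comms c : Subgroup Gal(Qb/ℚ)) : Set Gal(Qb/ℚ)) :=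
    Subgroup.isOpen_mono le_sup_left F.fixingSubgroup_isOpen
  rw [fix_fixed hWo] at hD
  refine hom_step hp2 hS (big_fix F) hcc (fun g => ?_) hD
  have hc' : ∀ x, (ι.comp (g⁻¹ : Qb ≃+* Qb).toRingHom) ((g * c * g⁻¹) x) =
      conj ((ι.comp (g⁻¹ : Qb ≃+* Qb).toRingHom) x) := by
    intro x
    change ι (g⁻¹ ((g * c * g⁻¹) x)) = conj (ι (g⁻¹ x))
    rw [← hc, ← AlgEquiv.mul_apply, ← AlgEquiv.mul_apply]
    congr 2
    group
  have h1 := hr _ _ hc'
  rw [fix_F hc'] at h1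
  have h2 : cc (g * c * g⁻¹) F.fixingSubgroup =
      F.fixingSubgroup ⊓ (F.map (g * c * g⁻¹).toAlgHom).fixingSubgroup := by
    ext m
    rw [mem_cc, Subgroup.mem_inf, mem_fix_map]
  rw [h2]
  exact h1

end hom

end Pool.Agent.U152.EF
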