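import Pool.Agent.U152.FS.Cnt

/-!
# Extending invariant homomorphisms; the symmetric part of a homomorphism for an involution
-/

set_option autoImplicit false

namespace Pool.Agent.U152.EF

open Subgroup Pool.Agent.U152.FS

variable {𝔾 : Type} [Group 𝔾] [TopologicalSpace 𝔾]

section ext

/-- The homomorphisms on `N` which are invariant under `L`. -/
def IHom {Ω : Type} (p : ℕ) (I : Ω → Subgroup 𝔾) (L N : Subgroup 𝔾) : Set (N → ZMod p) :=
  {x | x ∈ JHom p I N ⊤ ∧ ∀ g ∈ L, ∀ n m : N, (m : 𝔾) = g⁻¹ * n * g → x m = x n}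

/-- the representatives -/
noncomputable def rr (L N : Subgroup 𝔾) (g : L) : L := (g : L ⧸ N.subgroupOf L).out

theorem rr_mem (L N : Subgroup 𝔾) (g : L) : ((rr L N g : L) : 𝔾)⁻¹ * (g : 𝔾) ∈ N := by
  obtain ⟨u, hu⟩ := QuotientGroup.mk_out_eq_mul (N.subgroupOf L) g
  have h1 : ((rr L N g : L) : 𝔾) = g * u := by
    have h2 : rr L N g = g * u := hu
    rw [h2]
    rfl
  rw [h1, mul_inv_rev, mul_assoc, inv_mul_cancel, mul_one]
  exact N.inv_mem u.2

/-- the part in `N` -/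
noncomputable def nu (L N : Subgroup 𝔾) (g : L) : N :=
  ⟨((rr L N g : L) : 𝔾)⁻¹ * (g : 𝔾), rr_mem L N g⟩

/-- the factor set -/
noncomputable def fs (L N : Subgroup 𝔾) (q q' : L ⧸ N.subgroupOf L) : 𝔾 :=
  ((rr L N (q.out * q'.out) : L) : 𝔾)⁻¹ * (q.out * q'.out)

theorem fs_mem (L N : Subgroup 𝔾) (q q' : L ⧸ N.subgroupOf L) : fs L N q q' ∈ N := by
  have h := rr_mem L N (q.out * q'.out)
  exact h

theorem rr_mul (L N : Subgroup 𝔾) (hN : ∀ g ∈ L, ∀ n ∈ N, g⁻¹ * n * g ∈ N) (g g' : L) :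
    rr L N (g * g') = rr L N (rr L N g * rr L N g') := by
  unfold rr
  congr 1
  apply QuotientGroup.eq.2
  change ((g * g' : L) : 𝔾)⁻¹ * ((rr L N g * rr L N g' : L) : 𝔾) ∈ N
  have h1 := rr_mem L N g
  have h2 := rr_mem L N g'
  have h3 := hN _ (rr L N g').2 _ h1
  have h4 : ((g * g' : L) : 𝔾)⁻¹ * ((rr L N g * rr L N g' : L) : 𝔾) =
      (((rr L N g' : L) : 𝔾)⁻¹ * (((rr L N g : L) : 𝔾)⁻¹ * g) * (rr L N g' : L) *
        (((rr L N g' : L) : 𝔾)⁻¹ * g'))⁻¹ := by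
    rw [Subgroup.coe_mul, Subgroup.coe_mul]
    group
  rw [h4]
  exact N.inv_mem (N.mul_mem h3 h2)

theorem nu_mul {p : ℕ} {Ω : Type} {I : Ω → Subgroup 𝔾} {L N : Subgroup 𝔾}
    (hN : ∀ g ∈ L, ∀ n ∈ N, g⁻¹ * n * g ∈ N) {x : N → ZMod p} (hx : x ∈ IHom p I L N) (g g' : L) :
    x (nu L N (g * g')) = x ⟨fs L N g g', fs_mem L N g g'⟩ + x (nu L N g) + x (nu L N g') := by
  have h1 : nu L N (g * g') = ⟨fs L N g g', fs_mem L N g g'⟩ *
      ⟨((rr L N g' : L) : 𝔾)⁻¹ * (nu L N g : 𝔾) * (rr L N g' : L),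
        hN _ (rr L N g').2 _ (nu L N g).2⟩ * nu L N g' := by
    apply Subtype.ext
    change ((rr L N (g * g') : L) : 𝔾)⁻¹ * ((g * g' : L) : 𝔾) = _ * _ * _
    rw [rr_mul L N hN]
    change _ = (((rr L N (rr L N g * rr L N g') : L) : 𝔾)⁻¹ * ((rr L N g : L) * (rr L N g' : L))) *
      (((rr L N g' : L) : 𝔾)⁻¹ * (((rr L N g : L) : 𝔾)⁻¹ * g) * (rr L N g' : L)) *
      (((rr L N g' : L) : 𝔾)⁻¹ * g')
    rw [Subgroup.coe_mul]
    group
  rw [h1, hx.1.1, hx.1.1]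
  congr 2
  exact hx.2 _ (rr L N g').2 (nu L N g) _ rfl

/-- The number of the invariant homomorphisms is bounded by the number of homomorphisms on the
larger group. -/
theorem ext_le {Ω : Type} {p : ℕ} [hp : Fact p.Prime] {I : Ω → Subgroup 𝔾} {L N : Subgroup 𝔾}
    (hNL : N ≤ L) (hN : ∀ g ∈ L, ∀ n ∈ N, g⁻¹ * n * g ∈ N) (hNb : Big N) {n C : ℕ}
    (hn0 : N.relIndex L ≠ 0) (hn : N.relIndex L ≤ n) (hC : (JHom p I L N).encard ≤ (C : ℕ∞)) :
    (IHom p I L N).encard ≤ ((C * p ^ (n * n) : ℕ) : ℕ∞) := by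
  classical
  have hfi : (N.subgroupOf L).FiniteIndex := ⟨hn0⟩
  have hfin : Finite (L ⧸ N.subgroupOf L) := inferInstance
  let f : (N → ZMod p) → ((L ⧸ N.subgroupOf L) × (L ⧸ N.subgroupOf L) → ZMod p) :=
    fun x q => x ⟨fs L N q.1 q.2, fs_mem L N q.1 q.2⟩
  refine fiber_le f (t := Set.univ) (fun _ _ => Set.mem_univ _) (B := p ^ (n * n)) ?_ ?_
  · rw [Set.encard_univ, ENat.card_eq_coe_natCard]
    have h1 : Nat.card ((L ⧸ N.subgroupOf L) × (L ⧸ N.subgroupOf L) → ZMod p) ≤ p ^ (n * n) := by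
      rw [Nat.card_fun, Nat.card_zmod, Nat.card_prod]
      exact Nat.pow_le_pow_right hp.out.pos (Nat.mul_le_mul hn hn)
    exact_mod_cast h1
  · intro T hT hf
    rcases T.eq_empty_or_nonempty with rfl | ⟨x₀, hx₀⟩
    · simp
    have hinj : Set.InjOn (fun (x : N → ZMod p) (g : L) => x (nu L N g) - x₀ (nu L N g)) T := by
      intro x _ y _ hxy
      funext m
      have h1 := congrFun hxy (rr L N 1 * ⟨m, hNL m.2⟩)
      have h2 : ((1 : L) : L ⧸ N.subgroupOf L) =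
          ((rr L N 1 * ⟨m, hNL m.2⟩ : L) : L ⧸ N.subgroupOf L) := by
        apply QuotientGroup.eq.2
        change (((1 : L) : 𝔾)⁻¹ * ((rr L N 1 * ⟨m, hNL m.2⟩ : L) : 𝔾)) ∈ N
        have h3 := rr_mem L N 1
        rw [Subgroup.coe_one, mul_one] at h3
        rw [Subgroup.coe_one, inv_one, one_mul, Subgroup.coe_mul]
        refine N.mul_mem ?_ m.2
        have h4 := N.inv_mem h3
        rwa [inv_inv] at h4
      have h3 : nu L N (rr L N 1 * ⟨m, hNL m.2⟩) = m := by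
        apply Subtype.ext
        change ((rr L N (rr L N 1 * ⟨m, hNL m.2⟩) : L) : 𝔾)⁻¹ *
          ((rr L N 1 * ⟨m, hNL m.2⟩ : L) : 𝔾) = m
        have h4 : rr L N (rr L N 1 * ⟨m, hNL m.2⟩) = rr L N 1 := by
          unfold rr at h2 ⊢
          rw [← h2]
        rw [h4, Subgroup.coe_mul, inv_mul_cancel_left]
      simp only [h3] at h1
      exact sub_left_injective h1
    rw [← Finset.card_image_of_injOn hinj]
    refine card_le hC _ ?_
    intro y hy
    obtain ⟨x, hx, rfl⟩ := Finset.mem_image.1 (Finset.mem_coe.1 hy)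
    have hx1 := hT (Finset.mem_coe.2 hx)
    have hx2 := hT (Finset.mem_coe.2 hx₀)
    have hval : ∀ g : L, ∀ hg : (g : 𝔾) ∈ N, x (nu L N g) - x₀ (nu L N g) = x ⟨g, hg⟩ - x₀ ⟨g, hg⟩ := by
      intro g hg
      -- `x - x₀` is additive on `L` and `nu` changes `g` by `nu 1`
      have e : ∀ z : N → ZMod p, z ∈ IHom p I L N →
          z (nu L N g) = z (nu L N 1) + z ⟨g, hg⟩ := by
        intro z hz
        have h2 : ((1 : L) : L ⧸ N.subgroupOf L) = (g : L ⧸ N.subgroupOf L) := by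
          apply QuotientGroup.eq.2
          change (((1 : L) : 𝔾)⁻¹ * (g : 𝔾)) ∈ N
          rwa [Subgroup.coe_one, inv_one, one_mul]
        have h3 : nu L N g = nu L N 1 * ⟨g, hg⟩ := by
          apply Subtype.ext
          change ((rr L N g : L) : 𝔾)⁻¹ * (g : 𝔾) = (((rr L N 1 : L) : 𝔾)⁻¹ * ((1 : L) : 𝔾)) * (g : 𝔾)
          have h4 : rr L N g = rr L N 1 := by
            unfold rr
            rw [h2]
          rw [h4, Subgroup.coe_one, mul_one]
        rw [h3, hz.1.1]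
      have e1 : x (nu L N 1) = x₀ (nu L N 1) := by
        have k : ∀ z : N → ZMod p, z ∈ IHom p I L N →
            z (nu L N 1) = - z ⟨fs L N (1 : L) (1 : L), fs_mem L N (1 : L) (1 : L)⟩ := by
          intro z hz
          have h5 := nu_mul hN hz 1 1
          rw [mul_one] at h5
          have h6 : z ⟨fs L N (1 : L) (1 : L), fs_mem L N (1 : L) (1 : L)⟩ + z (nu L N 1) = 0 := by
            have h7 : z (nu L N 1) = (z ⟨fs L N (1 : L) (1 : L), fs_mem L N (1 : L) (1 : L)⟩ +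
              z (nu L N 1)) + z (nu L N 1) := h5
            exact right_eq_add.1 h7
          rw [add_comm] at h6
          exact eq_neg_of_add_eq_zero_left h6
        rw [k x hx1, k x₀ hx2]
        have h8 := congrFun (hf x hx x₀ hx₀) ((1 : L), (1 : L))
        exact congrArg Neg.neg h8
      rw [e x hx1, e x₀ hx2, e1]
      ring
    obtain ⟨M, hM, hM0⟩ := hx1.1.2.1
    obtain ⟨M', hM', hM0'⟩ := hx2.1.2.1
    refine ⟨fun g g' => ?_, ⟨N ⊓ (M ⊓ M'), hNb.inf (hM.inf hM'), fun g hg => ?_⟩, fun w g hg hgN => ?_⟩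
    · show x (nu L N (g * g')) - x₀ (nu L N (g * g')) =
        (x (nu L N g) - x₀ (nu L N g)) + (x (nu L N g') - x₀ (nu L N g'))
      have h1 := nu_mul hN hx1 g g'
      have h2 := nu_mul hN hx2 g g'
      have h3 := congrFun (hf x hx x₀ hx₀) ((g : L ⧸ N.subgroupOf L), (g' : L ⧸ N.subgroupOf L))
      change x ⟨fs L N g g', _⟩ = x₀ ⟨fs L N g g', _⟩ at h3
      rw [h1, h2, h3]
      ring
    · show x (nu L N g) - x₀ (nu L N g) = 0
      rw [hval g hg.1, hM0 ⟨g, hg.1⟩ hg.2.1, hM0' ⟨g, hg.1⟩ hg.2.2, sub_self]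
    · show x (nu L N g) - x₀ (nu L N g) = 0
      rw [hval g hgN, hx1.1.2.2 w ⟨g, hgN⟩ hg (mem_top _), hx2.1.2.2 w ⟨g, hgN⟩ hg (mem_top _), sub_self]

/-- The number of the homomorphisms with invariant restrictions. -/
theorem res_le {Ω : Type} {p : ℕ} [hp : Fact p.Prime] {I : Ω → Subgroup 𝔾} {L L' N : Subgroup 𝔾}
    (hNL : N ≤ L) {s : Set (L → ZMod p)} (hs : s ⊆ JHom p I L ⊤)
    (hinv : ∀ h ∈ s, ∀ g ∈ L', ∀ n m : N, (m : 𝔾) = g⁻¹ * n * g →
      h ⟨m, hNL m.2⟩ = h ⟨n, hNL n.2⟩) {n C : ℕ}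
    (hn0 : N.relIndex L ≠ 0) (hn : N.relIndex L ≤ n) (hC : (IHom p I L' N).encard ≤ (C : ℕ∞)) :
    s.encard ≤ ((p ^ n * C : ℕ) : ℕ∞) := by
  classical
  have hfi : (N.subgroupOf L).FiniteIndex := ⟨hn0⟩
  have hfin : Finite (L ⧸ N.subgroupOf L) := inferInstance
  refine fiber_le (fun (h : L → ZMod p) (m : N) => h ⟨m, hNL m.2⟩) (t := IHom p I L' N)
    (fun h hh => ⟨⟨fun a b => (hs hh).1 ⟨a, hNL a.2⟩ ⟨b, hNL b.2⟩, ?_, fun w x hx _ => (hs hh).2.2 w _ hx (mem_top _)⟩,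
      hinv h hh⟩) hC ?_
  · obtain ⟨M, hM, hM0⟩ := (hs hh).2.1
    exact ⟨M, hM, fun x hx => hM0 _ hx⟩
  · intro T hT hf
    have h6 : Nat.card T ≤ Nat.card (L ⧸ N.subgroupOf L → ZMod p) :=
      Nat.card_le_card_of_injective (fun φ : T => fun q => φ.1 q.out) (by
        intro φ ψ h
        apply Subtype.ext
        funext x
        obtain ⟨u, hu⟩ := QuotientGroup.mk_out_eq_mul (N.subgroupOf L) x
        have h7 := congrFun h (x : L ⧸ N.subgroupOf L)
        simp only at h7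
        have ha := (hs (hT φ.2)).1
        have hb := (hs (hT ψ.2)).1
        have h8 := congrFun (hf _ φ.2 _ ψ.2) ⟨u, u.2⟩
        change φ.1 (u : L) = ψ.1 (u : L) at h8
        rw [hu, ha, hb, h8] at h7
        exact add_right_cancel h7)
    rw [Nat.card_fun, Nat.card_eq_fintype_card, Fintype.card_coe, Nat.card_zmod] at h6
    exact h6.trans (Nat.pow_le_pow_right hp.out.pos hn)

end ext

end Pool.Agent.U152.EF
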