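import Pool.Agent.U152.EF.Sym
import Pool.Agent.U152.FS.Loc
import Pool.Agent.X310.MuGrp

/-!
# The layers of the cyclotomic extension: one step for all conjugates of an involution
-/

set_option autoImplicit false

namespace Pool.Agent.U152.EF

open Subgroup Module IntermediateField Pool.Agent.U152.FS Pool.Agent.Q60.MU Pool.Agent.W5h77.MB
open Pool.Agent.U152.MU
open Pool.Agent.X310.Mu (comms comms_normal)
open scoped Pointwise

/-- An involution is trivial on the layers. -/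
theorem inv_layer {p : ℕ} [hp : Fact p.Prime] (hp2 : p ≠ 2) {R : IntermediateField ℚ Qb}
    (hR : R ∈ Layers p) {c : Gal(Qb/ℚ)} (hc : c * c = 1) : c ∈ R.fixingSubgroup := by
  have hfd := (lay_layers hp.out R hR).1
  have hn : R.fixingSubgroup.Normal := (InfiniteGalois.normal_iff_isGalois R).2 (lay_layers hp.out R hR).2.1
  obtain ⟨m, hm⟩ := hR
  have h1 := R.fixingSubgroup.pow_index_mem c
  rw [← finrank_eq_fixingSubgroup_index, hm.1] at h1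
  have hodd : Odd (p ^ m) := (hp.out.odd_of_ne_two hp2).pow
  obtain ⟨k, hk⟩ := hodd
  rw [hk, pow_succ, pow_mul, pow_two, hc, one_pow, one_mul] at h1
  exact h1

theorem cc_layer {G L : Subgroup Gal(Qb/ℚ)} (hG : G.Normal) {c : Gal(Qb/ℚ)} (hc : c * c = 1)
    (hcG : c ∈ G) : (cc c L ⊔ zpowers c) ⊓ G = cc c (L ⊓ G) ⊔ zpowers c := by
  have hcc : ∀ g, g ∈ cc c (L ⊓ G) ↔ g ∈ cc c L ∧ g ∈ G := by
    intro g
    rw [mem_cc, mem_cc]
    constructor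
    · rintro ⟨⟨h1, h2⟩, h3, h4⟩
      exact ⟨⟨h1, h3⟩, h2⟩
    · rintro ⟨⟨h1, h2⟩, h3⟩
      refine ⟨⟨h1, h3⟩, h2, ?_⟩
      have h4 := hG.conj_mem g h3 c⁻¹
      rwa [inv_inv] at h4
  ext g
  rw [Subgroup.mem_inf, mem_W hc, mem_W hc, hcc, hcc]
  constructor
  · rintro ⟨h1 | h1, h2⟩
    · exact Or.inl ⟨h1, h2⟩
    · exact Or.inr ⟨h1, mul_mem h2 hcG⟩
  · rintro (⟨h1, h2⟩ | ⟨h1, h2⟩)
    · exact ⟨Or.inl h1, h2⟩
    · refine ⟨Or.inr h1, ?_⟩
      have h3 := mul_mem h2 hcG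
      rwa [mul_assoc, hc, mul_one] at h3

section step

variable {p : ℕ} [hp : Fact p.Prime] {S : Set ℕ} {L : Subgroup Gal(Qb/ℚ)} {c : Gal(Qb/ℚ)}

/-- the representatives of the conjugates of `c` -/
noncomputable def cq (c : Gal(Qb/ℚ)) {N : Subgroup Gal(Qb/ℚ)} (q : Gal(Qb/ℚ) ⧸ N) : Gal(Qb/ℚ) :=
  q.out * c * q.out⁻¹

/-- the homomorphisms which are antisymmetric for the `cq q`, `q ∈ J` -/
def As (p : ℕ) (S : Set ℕ) (L : Subgroup Gal(Qb/ℚ)) (c : Gal(Qb/ℚ)) {N : Subgroup Gal(Qb/ℚ)}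
    (J : Finset (Gal(Qb/ℚ) ⧸ N)) (R : IntermediateField ℚ Qb) :
    Set ((L ⊓ R.fixingSubgroup : Subgroup Gal(Qb/ℚ)) → ZMod p) :=
  {h | h ∈ JHom p (loc S) (L ⊓ R.fixingSubgroup) ⊤ ∧
    ∀ q ∈ J, ∀ g ∈ cc (cq c q) (L ⊓ R.fixingSubgroup), sy (cq c q) h g = 0}

theorem ez_sub {L : Subgroup Gal(Qb/ℚ)} (h h' : L → ZMod p) (g : Gal(Qb/ℚ)) :
    ez (h - h') g = ez h g - ez h' g := by
  unfold ez
  split_ifs
  · rfl
  · rw [sub_zero]

theorem sy_sub {L : Subgroup Gal(Qb/ℚ)} (c : Gal(Qb/ℚ)) (h h' : L → ZMod p) (g : Gal(Qb/ℚ)) :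
    sy c (h - h') g = sy c h g - sy c h' g := by
  unfold sy
  rw [ez_sub, ez_sub]
  ring

theorem jhom_sub {𝔾 : Type} [Group 𝔾] [TopologicalSpace 𝔾] {Ω : Type} {I : Ω → Subgroup 𝔾}
    {L V₀ : Subgroup 𝔾} {h h' : L → ZMod p} (hh : h ∈ JHom p I L V₀) (hh' : h' ∈ JHom p I L V₀) :
    h - h' ∈ JHom p I L V₀ := by
  obtain ⟨a1, ⟨N, hN, b1⟩, c1⟩ := hh
  obtain ⟨a2, ⟨M, hM, b2⟩, c2⟩ := hh'
  refine ⟨fun x y => ?_, ⟨N ⊓ M, hN.inf hM, fun x hx => ?_⟩, fun w x hx hx' => ?_⟩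
  · rw [Pi.sub_apply, Pi.sub_apply, Pi.sub_apply, a1, a2]
    abel
  · rw [Pi.sub_apply, b1 x hx.1, b2 x hx.2, sub_self]
  · rw [Pi.sub_apply, c1 w x hx hx', c2 w x hx hx', sub_self]

theorem cq_sq (hc : c * c = 1) {N : Subgroup Gal(Qb/ℚ)} (q : Gal(Qb/ℚ) ⧸ N) :
    cq c q * cq c q = 1 := by
  unfold cq
  have h1 : q.out * c * q.out⁻¹ * (q.out * c * q.out⁻¹) = q.out * (c * c) * q.out⁻¹ := by group
  rw [h1, hc, mul_one, mul_inv_cancel]

/-- Going down one involution. -/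
theorem as_step (hp2 : p ≠ 2) (hL : Big L) (hc : c * c = 1)
    (hW : ∀ g : Gal(Qb/ℚ), HomBdd p S (cc (g * c * g⁻¹) L ⊔ zpowers (g * c * g⁻¹)))
    {N : Subgroup Gal(Qb/ℚ)} (J : Finset (Gal(Qb/ℚ) ⧸ N))
    (h : ∃ C : ℕ, ∀ R ∈ Layers p, (As p S L c J R).encard ≤ (C : ℕ∞)) :
    ∃ C : ℕ, ∀ R ∈ Layers p, (As p S L c (∅ : Finset (Gal(Qb/ℚ) ⧸ N)) R).encard ≤ (C : ℕ∞) := by
  classical
  induction J using Finset.induction_on with
  | empty => exact h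
  | insert q J _ ih =>
    refine ih ?_
    obtain ⟨D, hD⟩ := h
    obtain ⟨B, hB⟩ := hW q.out
    refine ⟨D * B, fun R hR => ?_⟩
    have hRf := (lay_layers hp.out R hR).1
    have hn : R.fixingSubgroup.Normal :=
      (InfiniteGalois.normal_iff_isGalois R).2 (lay_layers hp.out R hR).2.1
    have hB' := hB R hR
    change (JHom p (loc S) ((cc (cq c q) L ⊔ zpowers (cq c q)) ⊓ R.fixingSubgroup) ⊤).encard ≤ _ at hB'
    rw [cc_layer hn (cq_sq hc q) (inv_layer hp2 hR (cq_sq hc q))] at hB'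
    refine sym_le hp2 (loc_conj S) (hL.inf (big_fix R)) (cq_sq hc q) (fun h hh => hh.1) ?_ hB' (hD R hR)
    intro h hh h' hh' h1
    refine ⟨jhom_sub hh.1 hh'.1, fun q' hq' g hg => ?_⟩
    rcases Finset.mem_insert.1 hq' with rfl | hq'
    · exact h1 g hg
    · rw [sy_sub, hh.2 q' hq' g hg, hh'.2 q' hq' g hg, sub_self]

theorem cq_rep {N : Subgroup Gal(Qb/ℚ)} (hN : N.Normal) (c g : Gal(Qb/ℚ)) :
    ∃ n ∈ N, g * c * g⁻¹ = cq c (g : Gal(Qb/ℚ) ⧸ N) * n := by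
  obtain ⟨⟨u, huN⟩, hu⟩ := QuotientGroup.mk_out_eq_mul N g
  change _ = g * u at hu
  refine ⟨(cq c (g : Gal(Qb/ℚ) ⧸ N))⁻¹ * (g * c * g⁻¹), ?_, by group⟩
  unfold cq
  rw [hu]
  have h1 : (g * u * c * (g * u)⁻¹)⁻¹ * (g * c * g⁻¹) =
      g * (u * (c⁻¹ * u⁻¹ * c)) * g⁻¹ := by group
  rw [h1]
  refine hN.conj_mem _ (mul_mem huN ?_) g
  have h2 := hN.conj_mem _ (N.inv_mem huN) c⁻¹
  rwa [inv_inv] at h2

/-- The restrictions of the homomorphisms which are antisymmetric for all the conjugates. -/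
theorem as_inv (hp2 : p ≠ 2) (hc : c * c = 1) {N : Subgroup Gal(Qb/ℚ)} (hN : N.Normal)
    [Fintype (Gal(Qb/ℚ) ⧸ N)] (hNL : N ≤ L) {R : IntermediateField ℚ Qb} (hR : R ∈ Layers p)
    {h : (L ⊓ R.fixingSubgroup : Subgroup Gal(Qb/ℚ)) → ZMod p}
    (hh : h ∈ As p S L c (Finset.univ : Finset (Gal(Qb/ℚ) ⧸ N)) R) :
    ∀ g ∈ (L ⊔ comms c) ⊓ R.fixingSubgroup, ∀ n ∈ N ⊓ R.fixingSubgroup,
      ez h (g⁻¹ * n * g) = ez h n := by
  have hGn : R.fixingSubgroup.Normal :=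
    (InfiniteGalois.normal_iff_isGalois R).2 (lay_layers hp.out R hR).2.1
  have hNR : (N ⊓ R.fixingSubgroup).Normal := inferInstance
  have hle : N ⊓ R.fixingSubgroup ≤ L ⊓ R.fixingSubgroup := inf_le_inf_right _ hNL
  have hconj : ∀ (g : Gal(Qb/ℚ)), ∀ n ∈ N ⊓ R.fixingSubgroup, g⁻¹ * n * g ∈ N ⊓ R.fixingSubgroup := by
    intro g n hn
    have h1 := hNR.conj_mem n hn g⁻¹
    rwa [inv_inv] at h1
  let K : Subgroup Gal(Qb/ℚ) :=
    { carrier := {g | ∀ n ∈ N ⊓ R.fixingSubgroup, ez h (g⁻¹ * n * g) = ez h n}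
      one_mem' := fun n _ => by rw [inv_one, one_mul, mul_one]
      mul_mem' := by
        intro x y hx hy n hn
        have h1 : (x * y)⁻¹ * n * (x * y) = y⁻¹ * (x⁻¹ * n * x) * y := by group
        rw [h1, hy _ (hconj x n hn), hx n hn]
      inv_mem' := by
        intro x hx n hn
        have h1 := hNR.conj_mem n hn x
        have h2 := hx _ h1
        have h3 : x⁻¹ * (x * n * x⁻¹) * x = n := by group
        rw [h3] at h2
        have h4 : x⁻¹⁻¹ * n * x⁻¹ = x * n * x⁻¹ := by group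
        rw [h4, ← h2] }
  have ha := hh.1.1
  have hadd : ∀ {a b : Gal(Qb/ℚ)}, a ∈ L ⊓ R.fixingSubgroup → b ∈ L ⊓ R.fixingSubgroup →
      ez h (a * b) = ez h a + ez h b := fun h1 h2 => ez_mul ha h1 h2
  have hinv : ∀ {a : Gal(Qb/ℚ)}, a ∈ L ⊓ R.fixingSubgroup → ez h a⁻¹ = - ez h a := by
    intro a h1
    have h2 := hadd (inv_mem h1) h1
    rw [inv_mul_cancel] at h2
    have h3 : ez h (1 : Gal(Qb/ℚ)) = 0 := by
      have h4 := hadd (one_mem (L ⊓ R.fixingSubgroup)) (one_mem _)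
      rw [mul_one] at h4
      exact left_eq_add.1 h4
    rw [h3] at h2
    exact eq_neg_of_add_eq_zero_left h2.symm
  have hLK : L ⊓ R.fixingSubgroup ≤ K := by
    intro g hg n hn
    rw [hadd (mul_mem (inv_mem hg) (hle hn)) hg, hadd (inv_mem hg) (hle hn), hinv hg]
    ring
  -- the conjugates of `c`
  have hcj : ∀ g : Gal(Qb/ℚ), ∀ n ∈ N ⊓ R.fixingSubgroup,
      ez h ((g * c * g⁻¹)⁻¹ * n * (g * c * g⁻¹)) = - ez h n := by
    intro g n hn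
    obtain ⟨m, hm, hgm⟩ := cq_rep hN c g
    have hcG : c ∈ R.fixingSubgroup := inv_layer hp2 hR hc
    have hmG : m ∈ R.fixingSubgroup := by
      have h1 : m = (cq c (g : Gal(Qb/ℚ) ⧸ N))⁻¹ * (g * c * g⁻¹) := by
        rw [hgm]
        group
      rw [h1]
      exact mul_mem (inv_mem (hGn.conj_mem c hcG _)) (hGn.conj_mem c hcG g)
    have hmN : m ∈ N ⊓ R.fixingSubgroup := ⟨hm, hmG⟩
    rw [hgm]
    have h1 : (cq c (g : Gal(Qb/ℚ) ⧸ N) * m)⁻¹ * n * (cq c (g : Gal(Qb/ℚ) ⧸ N) * m) =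
        m⁻¹ * ((cq c (g : Gal(Qb/ℚ) ⧸ N))⁻¹ * n * cq c (g : Gal(Qb/ℚ) ⧸ N)) * m := by group
    rw [h1, hLK (hle hmN) _ (hconj _ n hn)]
    have h2 : n ∈ cc (cq c (g : Gal(Qb/ℚ) ⧸ N)) (L ⊓ R.fixingSubgroup) :=
      mem_cc.2 ⟨hle hn, hle (hconj _ n hn)⟩
    have h3 := hh.2 _ (Finset.mem_univ _) n h2
    unfold sy at h3
    rw [add_comm] at h3
    exact eq_neg_of_add_eq_zero_left h3
  have hDK : comms c ≤ K := by
    unfold comms
    rw [Subgroup.closure_le]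
    rintro _ ⟨g, rfl⟩ n hn
    have h1 : (g * c * g⁻¹ * c⁻¹)⁻¹ * n * (g * c * g⁻¹ * c⁻¹) =
        (1 * c * 1⁻¹)⁻¹ * ((g * c * g⁻¹)⁻¹ * n * (g * c * g⁻¹)) * (1 * c * 1⁻¹) := by
      have hci : c⁻¹ = c := inv_eq_of_mul_eq_one_right hc
      have h2 : (g * c * g⁻¹ * c⁻¹)⁻¹ * n * (g * c * g⁻¹ * c⁻¹) =
        c * ((g * c * g⁻¹)⁻¹ * n * (g * c * g⁻¹)) * c⁻¹ := by group
      have h3 : (1 * c * 1⁻¹)⁻¹ * ((g * c * g⁻¹)⁻¹ * n * (g * c * g⁻¹)) * (1 * c * 1⁻¹) =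
        c⁻¹ * ((g * c * g⁻¹)⁻¹ * n * (g * c * g⁻¹)) * c := by group
      rw [h2, h3, hci]
    rw [h1, hcj 1 _ (hconj _ n hn), hcj g n hn, neg_neg]
  intro g hg n hn
  have hg1 : g ∈ L ⊔ comms c := hg.1
  have hg2 : g ∈ R.fixingSubgroup := hg.2
  have hcn := comms_normal c
  obtain ⟨l, hl, d, hd, rfl⟩ : ∃ l ∈ L, ∃ d ∈ comms c, g = l * d := by
    rw [← SetLike.mem_coe, Subgroup.mul_normal] at hg1
    obtain ⟨l, hl, d, hd, rfl⟩ := hg1
    exact ⟨l, hl, d, hd, rfl⟩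
  have hDG : comms c ≤ R.fixingSubgroup := by
    unfold comms
    rw [Subgroup.closure_le]
    rintro _ ⟨g, rfl⟩
    have hcG : c ∈ R.fixingSubgroup := inv_layer hp2 hR hc
    exact mul_mem (hGn.conj_mem c hcG g) (inv_mem hcG)
  have hlG : l ∈ R.fixingSubgroup := by
    have h1 := mul_mem hg2 (inv_mem (hDG hd))
    rwa [mul_inv_cancel_right] at h1
  exact (mul_mem (hLK ⟨hl, hlG⟩) (hDK hd)) n hn

/-- **One step for all the conjugates of an involution.** -/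
theorem hom_step (hp2 : p ≠ 2) (hS : Primes S) (hL : Big L) (hc : c * c = 1)
    (hW : ∀ g : Gal(Qb/ℚ), HomBdd p S (cc (g * c * g⁻¹) L ⊔ zpowers (g * c * g⁻¹)))
    (hD : HomBdd p S (L ⊔ comms c)) : HomBdd p S L := by
  classical
  set N := L.normalCore with hNdef
  have hN : N.Normal := Subgroup.normalCore_normal _
  have hNL : N ≤ L := Subgroup.normalCore_le _
  have hNb : Big N := hL.core
  have hNf : N.FiniteIndex := ⟨hNb.2⟩
  have : Fintype (Gal(Qb/ℚ) ⧸ N) := Fintype.ofFinite _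
  have hL'b : Big (L ⊔ comms c) := hL.mono le_sup_left
  obtain ⟨t, ht⟩ := exists_exc (p := p) hS hL'b hNb
  obtain ⟨B, hB⟩ := hD
  have h0 : N.relIndex ⊤ = N.index := relIndex_top_right N
  have hrel : ∀ X : Subgroup Gal(Qb/ℚ), N.relIndex X ≠ 0 ∧ N.relIndex X ≤ N.index := by
    intro X
    refine ⟨Subgroup.FiniteIndex.index_ne_zero (H := N.subgroupOf X), ?_⟩
    rw [← h0]
    exact relIndex_le_of_le_right le_top (by rw [h0]; exact hNb.2)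
  have hrel2 : ∀ X G : Subgroup Gal(Qb/ℚ), X ≤ G → (N ⊓ G).relIndex X = N.relIndex X := by
    intro X G hXG
    unfold relIndex
    congr 1
    ext x
    rw [mem_subgroupOf, mem_subgroupOf, Subgroup.mem_inf]
    exact ⟨fun h => h.1, fun h => ⟨h, hXG x.2⟩⟩
  have hall : ∃ C : ℕ, ∀ R ∈ Layers p,
      (As p S L c (Finset.univ : Finset (Gal(Qb/ℚ) ⧸ N)) R).encard ≤ (C : ℕ∞) := by
    refine ⟨p ^ N.index * ((B * (p ^ N.index) ^ t) * p ^ (N.index * N.index)), fun R hR => ?_⟩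
    have hRf := (lay_layers hp.out R hR).1
    have hGn : R.fixingSubgroup.Normal :=
      (InfiniteGalois.normal_iff_isGalois R).2 (lay_layers hp.out R hR).2.1
    have hNR : (N ⊓ R.fixingSubgroup).Normal := inferInstance
    have hconj : ∀ (g : Gal(Qb/ℚ)), ∀ n ∈ N ⊓ R.fixingSubgroup,
        g⁻¹ * n * g ∈ N ⊓ R.fixingSubgroup := by
      intro g n hn
      have h1 := hNR.conj_mem n hn g⁻¹
      rwa [inv_inv] at h1
    obtain ⟨T, hTt, hT⟩ := ht R hR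
    -- weak local conditions on the larger group
    have h1 : (JHom p (loc S) ((L ⊔ comms c) ⊓ R.fixingSubgroup) N).encard ≤
        ((B * (p ^ N.index) ^ t : ℕ) : ℕ∞) :=
      hom_weak (loc_conj S) (hrel _).1 (hrel _).2 T hTt hT (hB R hR)
    have h2 : JHom p (loc S) ((L ⊔ comms c) ⊓ R.fixingSubgroup) (N ⊓ R.fixingSubgroup) =
        JHom p (loc S) ((L ⊔ comms c) ⊓ R.fixingSubgroup) N := by
      ext h
      refine and_congr_right fun _ => and_congr_right fun _ => forall_congr' fun w =>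
        forall_congr' fun x => ?_
      exact ⟨fun h3 h4 h5 => h3 h4 ⟨h5, x.2.2⟩, fun h3 h4 h5 => h3 h4 h5.1⟩
    rw [← h2] at h1
    have hNL' : N ⊓ R.fixingSubgroup ≤ (L ⊔ comms c) ⊓ R.fixingSubgroup :=
      inf_le_inf_right _ (hNL.trans le_sup_left)
    have h3 := ext_le hNL' (fun g _ n hn => hconj g n hn) (hNb.inf (big_fix R))
      (n := N.index) (by rw [hrel2 _ _ inf_le_right]; exact (hrel _).1)
      (by rw [hrel2 _ _ inf_le_right]; exact (hrel _).2) h1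
    refine res_le (L' := (L ⊔ comms c) ⊓ R.fixingSubgroup) (inf_le_inf_right _ hNL)
      (fun h hh => hh.1) ?_
      (by rw [hrel2 _ _ inf_le_right]; exact (hrel _).1)
      (by rw [hrel2 _ _ inf_le_right]; exact (hrel _).2) h3
    intro h hh g hg n m hm
    have h4 := as_inv hp2 hc hN hNL hR hh g hg n n.2
    rw [← hm] at h4
    rw [ez_of h ⟨hNL m.2.1, m.2.2⟩, ez_of h ⟨hNL n.2.1, n.2.2⟩] at h4
    exact h4
  obtain ⟨C, hC⟩ := as_step hp2 hL hc hW _ hall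
  refine ⟨C, fun R hR => ?_⟩
  refine le_trans (Set.encard_le_encard fun h hh => ?_) (hC R hR)
  exact ⟨hh, fun q hq => absurd hq (Finset.notMem_empty q)⟩

end step

end Pool.Agent.U152.EF
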