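import Pool.Agent.U152.EF.Ext

/-!
# The symmetric part of a homomorphism for an involution
-/

set_option autoImplicit false

namespace Pool.Agent.U152.EF

open Subgroup Pool.Agent.U152.FS

variable {𝔾 : Type} [Group 𝔾]

/-- the elements `g` of `L` such that `c⁻¹ g c` is in `L` -/
def cc (c : 𝔾) (L : Subgroup 𝔾) : Subgroup 𝔾 := L ⊓ L.comap (MulAut.conj c⁻¹).toMonoidHom

theorem mem_cc {c g : 𝔾} {L : Subgroup 𝔾} : g ∈ cc c L ↔ g ∈ L ∧ c⁻¹ * g * c ∈ L := by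
  unfold cc
  rw [mem_inf, mem_comap]
  simp [MulAut.conj_apply]

theorem cc_conj {c g : 𝔾} {L : Subgroup 𝔾} (hc : c * c = 1) (hg : g ∈ cc c L) :
    c * g * c ∈ cc c L := by
  have hci : c⁻¹ = c := inv_eq_of_mul_eq_one_right hc
  rw [mem_cc] at hg ⊢
  rw [hci] at hg ⊢
  refine ⟨hg.2, ?_⟩
  have h1 : c * (c * g * c) * c = (c * c) * g * (c * c) := by group
  rw [h1, hc, one_mul, mul_one]
  exact hg.1

theorem mem_W {c g : 𝔾} {L : Subgroup 𝔾} (hc : c * c = 1) :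
    g ∈ cc c L ⊔ zpowers c ↔ g ∈ cc c L ∨ g * c ∈ cc c L := by
  have hci : c⁻¹ = c := inv_eq_of_mul_eq_one_right hc
  constructor
  · intro h
    let K : Subgroup 𝔾 :=
      { carrier := {g | g ∈ cc c L ∨ g * c ∈ cc c L}
        one_mem' := Or.inl (one_mem _)
        mul_mem' := by
          rintro x y (hx | hx) (hy | hy)
          · exact Or.inl (mul_mem hx hy)
          · right
            rw [mul_assoc]
            exact mul_mem hx hy
          · right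
            have h1 := mul_mem hx (cc_conj hc hy)
            have h2 : x * c * (c * y * c) = x * (c * c) * y * c := by group
            rw [h2, hc, mul_one] at h1
            exact h1
          · left
            have h1 := mul_mem hx (cc_conj hc hy)
            have h2 : x * c * (c * (y * c) * c) = x * (c * c) * y * (c * c) := by group
            rw [h2, hc, mul_one, mul_one] at h1
            exact h1
        inv_mem' := by
          rintro x (hx | hx)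
          · exact Or.inl (inv_mem hx)
          · right
            have h1 := cc_conj hc (inv_mem hx)
            have h2 : c * (x * c)⁻¹ * c = c * c⁻¹ * x⁻¹ * c := by group
            rw [h2, mul_inv_cancel, one_mul] at h1
            exact h1 }
    have hK : cc c L ⊔ zpowers c ≤ K := sup_le (fun x hx => Or.inl hx) ((zpowers_le (g := c)).2 (by
      right
      rw [hc]
      exact one_mem _))
    exact hK h
  · rintro (h | h)
    · exact mem_sup_left h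
    · have h1 := mul_mem (mem_sup_left (T := zpowers c) h) (mem_sup_right (mem_zpowers c))
      rwa [mul_assoc, hc, mul_one] at h1

/-- extension by zero -/
noncomputable def ez {p : ℕ} {L : Subgroup 𝔾} (h : L → ZMod p) (g : 𝔾) : ZMod p :=
  open Classical in if hg : g ∈ L then h ⟨g, hg⟩ else 0

theorem ez_of {p : ℕ} {L : Subgroup 𝔾} (h : L → ZMod p) {g : 𝔾} (hg : g ∈ L) : ez h g = h ⟨g, hg⟩ := by
  unfold ez
  rw [dif_pos hg]

theorem ez_mul {p : ℕ} {L : Subgroup 𝔾} {h : L → ZMod p} (ha : ∀ x y, h (x * y) = h x + h y)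
    {g g' : 𝔾} (hg : g ∈ L) (hg' : g' ∈ L) : ez h (g * g') = ez h g + ez h g' := by
  rw [ez_of h hg, ez_of h hg', ez_of h (mul_mem hg hg'), ← ha]
  rfl

/-- the symmetrization -/
noncomputable def sy {p : ℕ} {L : Subgroup 𝔾} (c : 𝔾) (h : L → ZMod p) (g : 𝔾) : ZMod p :=
  ez h g + ez h (c⁻¹ * g * c)

theorem sy_mul {p : ℕ} {L : Subgroup 𝔾} {c : 𝔾} {h : L → ZMod p} (ha : ∀ x y, h (x * y) = h x + h y)
    {g g' : 𝔾} (hg : g ∈ cc c L) (hg' : g' ∈ cc c L) : sy c h (g * g') = sy c h g + sy c h g' := by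
  rw [mem_cc] at hg hg'
  unfold sy
  have h1 : c⁻¹ * (g * g') * c = (c⁻¹ * g * c) * (c⁻¹ * g' * c) := by group
  rw [h1, ez_mul ha hg.1 hg'.1, ez_mul ha hg.2 hg'.2]
  ring

theorem sy_conj {p : ℕ} {L : Subgroup 𝔾} {c : 𝔾} (hc : c * c = 1) (h : L → ZMod p) (g : 𝔾) :
    sy c h (c * g * c) = sy c h g := by
  have hci : c⁻¹ = c := inv_eq_of_mul_eq_one_right hc
  unfold sy
  have h1 : c * (c * g * c) * c = (c * c) * g * (c * c) := by group
  rw [hci, h1, hc, one_mul, mul_one, add_comm]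

/-- the symmetric homomorphism on the larger group -/
noncomputable def Phi {p : ℕ} {L : Subgroup 𝔾} (c : 𝔾) (h : L → ZMod p)
    (g : (cc c L ⊔ zpowers c : Subgroup 𝔾)) : ZMod p := (2 : ZMod p)⁻¹ * sy c h (g * g : 𝔾)

theorem two_ne {p : ℕ} [hp : Fact p.Prime] (hp2 : p ≠ 2) : (2 : ZMod p) ≠ 0 := by
  intro h
  have h1 : ((2 : ℕ) : ZMod p) = 0 := by exact_mod_cast h
  rw [ZMod.natCast_eq_zero_iff] at h1
  exact hp2 ((Nat.prime_dvd_prime_iff_eq hp.out Nat.prime_two).1 h1)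

theorem Phi_left {p : ℕ} [hp : Fact p.Prime] (hp2 : p ≠ 2) {L : Subgroup 𝔾} {c : 𝔾}
    {h : L → ZMod p} (ha : ∀ x y, h (x * y) = h x + h y)
    {g : (cc c L ⊔ zpowers c : Subgroup 𝔾)} (hg : (g : 𝔾) ∈ cc c L) : Phi c h g = sy c h g := by
  unfold Phi
  rw [sy_mul ha hg hg, ← two_mul, ← mul_assoc, inv_mul_cancel₀ (two_ne hp2), one_mul]

theorem Phi_right {p : ℕ} [hp : Fact p.Prime] (hp2 : p ≠ 2) {L : Subgroup 𝔾} {c : 𝔾}
    (hc : c * c = 1) {h : L → ZMod p} (ha : ∀ x y, h (x * y) = h x + h y)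
    {g : (cc c L ⊔ zpowers c : Subgroup 𝔾)} (hg : (g : 𝔾) * c ∈ cc c L) :
    Phi c h g = sy c h (g * c) := by
  unfold Phi
  have h1 : (g * g : 𝔾) = (g * c) * (c * (g * c) * c) := by
    have h2 : (g * c : 𝔾) * (c * (g * c) * c) = g * (c * c) * g * (c * c) := by group
    rw [h2, hc, mul_one, mul_one]
  rw [h1, sy_mul ha hg (cc_conj hc hg), sy_conj hc, ← two_mul, ← mul_assoc,
    inv_mul_cancel₀ (two_ne hp2), one_mul]

theorem Phi_mul {p : ℕ} [hp : Fact p.Prime] (hp2 : p ≠ 2) {L : Subgroup 𝔾} {c : 𝔾}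
    (hc : c * c = 1) {h : L → ZMod p} (ha : ∀ x y, h (x * y) = h x + h y)
    (g g' : (cc c L ⊔ zpowers c : Subgroup 𝔾)) : Phi c h (g * g') = Phi c h g + Phi c h g' := by
  rcases (mem_W hc).1 g.2 with hg | hg <;> rcases (mem_W hc).1 g'.2 with hg' | hg'
  · rw [Phi_left hp2 ha hg, Phi_left hp2 ha hg', Phi_left hp2 ha (mul_mem hg hg' : _),
      Subgroup.coe_mul, sy_mul ha hg hg']
  · have h1 : ((g * g' : (cc c L ⊔ zpowers c : Subgroup 𝔾)) : 𝔾) * c = g * (g' * c) := by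
      rw [Subgroup.coe_mul, mul_assoc]
    rw [Phi_left hp2 ha hg, Phi_right hp2 hc ha hg',
      Phi_right hp2 hc ha (by rw [h1]; exact mul_mem hg hg'), h1, sy_mul ha hg hg']
  · have h1 : ((g * g' : (cc c L ⊔ zpowers c : Subgroup 𝔾)) : 𝔾) * c = (g * c) * (c * g' * c) := by
      have h2 : (g * c : 𝔾) * (c * g' * c) = g * (c * c) * g' * c := by group
      rw [h2, hc, mul_one, Subgroup.coe_mul]
    rw [Phi_right hp2 hc ha hg, Phi_left hp2 ha hg',
      Phi_right hp2 hc ha (by rw [h1]; exact mul_mem hg (cc_conj hc hg')), h1,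
      sy_mul ha hg (cc_conj hc hg'), sy_conj hc]
  · have h1 : ((g * g' : (cc c L ⊔ zpowers c : Subgroup 𝔾)) : 𝔾) = (g * c) * (c * (g' * c) * c) := by
      have h2 : (g * c : 𝔾) * (c * (g' * c) * c) = g * (c * c) * g' * (c * c) := by group
      rw [h2, hc, mul_one, mul_one, Subgroup.coe_mul]
    rw [Phi_right hp2 hc ha hg, Phi_right hp2 hc ha hg',
      Phi_left hp2 ha (by rw [h1]; exact mul_mem hg (cc_conj hc hg')), h1,
      sy_mul ha hg (cc_conj hc hg'), sy_conj hc]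

variable [TopologicalSpace 𝔾] [IsTopologicalGroup 𝔾]

theorem Big.conj {M : Subgroup 𝔾} (h : Big M) (c : 𝔾) :
    Big (M.comap (MulAut.conj c⁻¹).toMonoidHom) := by
  constructor
  · have h1 : ((M.comap (MulAut.conj c⁻¹).toMonoidHom : Subgroup 𝔾) : Set 𝔾) =
        (fun g => c⁻¹ * g * c⁻¹⁻¹) ⁻¹' M := by
      ext g
      rfl
    rw [h1]
    exact h.1.preimage ((continuous_const.mul continuous_id).mul continuous_const)
  · rw [index_comap_of_surjective _ (MulAut.conj c⁻¹).surjective]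
    exact h.2

/-- The symmetric part satisfies the local conditions. -/
theorem Phi_mem {Ω : Type} [MulAction 𝔾 Ω] {p : ℕ} [hp : Fact p.Prime] (hp2 : p ≠ 2)
    {I : Ω → Subgroup 𝔾} (hI : ∀ (g : 𝔾) (w : Ω), ∀ x ∈ I w, g * x * g⁻¹ ∈ I (g • w))
    {L : Subgroup 𝔾} (hL : Big L) {c : 𝔾} (hc : c * c = 1) {h : L → ZMod p} (hh : h ∈ JHom p I L ⊤) :
    Phi c h ∈ JHom p I (cc c L ⊔ zpowers c) ⊤ := by
  obtain ⟨ha, ⟨M, hM, hM0⟩, hw⟩ := hh
  refine ⟨Phi_mul hp2 hc ha, ⟨(L ⊓ M) ⊓ (L ⊓ M).comap (MulAut.conj c⁻¹).toMonoidHom,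
    (hL.inf hM).inf (Big.conj (hL.inf hM) c), ?_⟩, ?_⟩
  · rintro g ⟨⟨h1, h2⟩, h3⟩
    have h4 : c⁻¹ * (g : 𝔾) * c ∈ L ⊓ M := by
      have h5 : (MulAut.conj c⁻¹).toMonoidHom (g : 𝔾) ∈ L ⊓ M := h3
      simpa [MulAut.conj_apply] using h5
    have h5 : (g : 𝔾) ∈ cc c L := mem_cc.2 ⟨h1, h4.1⟩
    rw [Phi_left hp2 ha h5]
    unfold sy
    rw [ez_of h h1, ez_of h h4.1, hM0 ⟨g, h1⟩ h2, hM0 ⟨_, h4.1⟩ h4.2, add_zero]
  · intro w g hg _
    -- the square is in `cc c L`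
    have hsq : (g * g : 𝔾) ∈ cc c L := by
      rcases (mem_W hc).1 g.2 with h1 | h1
      · exact mul_mem h1 h1
      · have h2 := mul_mem h1 (cc_conj hc h1)
        have h3 : (g * c : 𝔾) * (c * (g * c) * c) = g * (c * c) * g * (c * c) := by group
        rw [h3, hc, mul_one, mul_one] at h2
        exact h2
    obtain ⟨h1, h2⟩ := mem_cc.1 hsq
    have h3 : (g * g : 𝔾) ∈ I w := mul_mem hg hg
    have h4 : c⁻¹ * (g * g : 𝔾) * c ∈ I (c⁻¹ • w) := by
      have h5 := hI c⁻¹ w _ h3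
      rwa [inv_inv] at h5
    unfold Phi sy
    rw [ez_of h h1, ez_of h h2, hw w ⟨_, h1⟩ h3 (mem_top _), hw _ ⟨_, h2⟩ h4 (mem_top _), add_zero,
      mul_zero]

/-- One involution. -/
theorem sym_le {Ω : Type} [MulAction 𝔾 Ω] {p : ℕ} [hp : Fact p.Prime] (hp2 : p ≠ 2)
    {I : Ω → Subgroup 𝔾} (hI : ∀ (g : 𝔾) (w : Ω), ∀ x ∈ I w, g * x * g⁻¹ ∈ I (g • w))
    {L : Subgroup 𝔾} (hL : Big L) {c : 𝔾} (hc : c * c = 1) {s t : Set (L → ZMod p)}
    (hs : s ⊆ JHom p I L ⊤)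
    (ht : ∀ h ∈ s, ∀ h' ∈ s, (∀ g ∈ cc c L, sy c (h - h') g = 0) → h - h' ∈ t) {B D : ℕ}
    (hB : (JHom p I (cc c L ⊔ zpowers c) ⊤).encard ≤ (B : ℕ∞)) (hD : t.encard ≤ (D : ℕ∞)) :
    s.encard ≤ ((D * B : ℕ) : ℕ∞) := by
  classical
  refine fiber_le (Phi c) (fun h hh => Phi_mem hp2 hI hL hc (hs hh)) hB fun T hT hf => ?_
  rcases T.eq_empty_or_nonempty with rfl | ⟨h₀, hh₀⟩
  · simp
  rw [← Finset.card_image_of_injective T (sub_left_injective (b := h₀))]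
  refine card_le hD _ ?_
  intro g hg
  obtain ⟨h, hh, rfl⟩ := Finset.mem_image.1 (Finset.mem_coe.1 hg)
  refine ht h (hT (Finset.mem_coe.2 hh)) h₀ (hT (Finset.mem_coe.2 hh₀)) fun x hx => ?_
  have h1 := congrFun (hf h hh h₀ hh₀) ⟨x, mem_sup_left hx⟩
  rw [Phi_left hp2 (hs (hT (Finset.mem_coe.2 hh))).1 (g := ⟨x, mem_sup_left hx⟩) hx,
    Phi_left hp2 (hs (hT (Finset.mem_coe.2 hh₀))).1 (g := ⟨x, mem_sup_left hx⟩) hx] at h1
  obtain ⟨h2, h3⟩ := mem_cc.1 hx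
  unfold sy at h1 ⊢
  change ez h x + ez h (c⁻¹ * x * c) = ez h₀ x + ez h₀ (c⁻¹ * x * c) at h1
  rw [ez_of _ h2, ez_of _ h3] at h1 ⊢
  rw [ez_of _ h2, ez_of _ h3] at h1
  rw [Pi.sub_apply, Pi.sub_apply]
  linear_combination h1

end Pool.Agent.U152.EF
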